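import Pool.Agent.U554.TD.TwoM

/-!
# Hodge classes and motivated classes, dimension by dimension, and the cubics `T(x, y, z) = 1`

Let `k` be an algebraically closed subfield of `ℂ` (for the equality `MT = G_mot` of the problem: `k = ℂ`).

* `𝓜` is the abelian category of the mixed motives over `k` of Nori, `one` its unit object, and
  `w : 𝓜 ⥤ 𝓗` the Hodge realization. The pure motives are the motives of André (Arapura), so a morphism
  `one ⟶ H^{2 i}(V)(i)`, `V` smooth projective, is a motivated class; a morphism `w(one) ⟶ w(M)` is a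
  Hodge class in `M`.
* `O b m X`, for the separated schemes `X` of finite type over `k`, is the motive `H_{m + 2 b}(X)(-b)`
  (Borel-Moore homology); if `X` is smooth of pure dimension `n`, this is `H^{2 i - m}(X)(i)`, `i = n - b`.
* `HodgeMotivated w one M`: every Hodge class in `M` is motivated.

The equality `MT = G_mot` for all motives over `ℂ` means that all Hodge classes on all smooth projective
varieties are motivated. Let `T` be a trilinear form in three blocks `x`, `y`, `z` of `a₁`, `a₂`, `a₃`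
variables.

* `bilS T` is the closed subscheme `Z_T` of `𝔸^(a₂ + a₃)` given by the `a₁` bilinear equations
  `∂T/∂x_i (y, z) = 0`;
* `hypS T` is the smooth affine cubic hypersurface `Y_T : T(x, y, z) = 1` of dimension
  `n = a₁ + a₂ + a₃ - 1`; `O (n - j) 1 (hypS T)` is the motive `H^{2 j - 1}(Y_T)(j)`.
-/

set_option autoImplicit false

open CategoryTheory AlgebraicGeometry MvPolynomial Pool.Agent.Y116.UV Pool.Agent.U554.TW Pool.Agent.U554.TD
  Pool.Agent.U483.GU

universe v u v' u'

namespace Pool.Agent.Results.MP_b8862a_ag.CubicsByDimension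

section

variable {𝓜 : Type u} [Category.{v} 𝓜] [Abelian 𝓜] {𝓗 : Type u'} [Category.{v'} 𝓗] [Abelian 𝓗]
  (w : 𝓜 ⥤ 𝓗) (one : 𝓜)

/-- Every Hodge class in the motive `M` is motivated. -/
def HodgeMotivated (M : 𝓜) : Prop := ∀ x : w.obj one ⟶ w.obj M, ∃ f : one ⟶ M, w.map f = x

variable {k : Type} [Field k]

/-- The known properties of the motives `O b m X = H_{m + 2 b}(X)(-b)`: the properties `IsAbTheory` (long
exact sequences, homotopy invariance, ...) and

* `point`: `H_{m + 2 b}(pt) = 0` for `m + 2 b ≠ 0`, in some of these cases;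
* `extreme`: if `dim X ≤ d`, then the Hodge classes in `H_{2 b}(X)(-b)` are algebraic, hence motivated, for
  `b ≤ 0` and for `b ≥ d`;
* `seq`: for a closed subscheme `Z` of `X` with complement `U`, the Hodge classes and the motivated classes
  in `H_{2 b}(U)(-b)` lift to `H_{2 b}(X)(-b)`, and a Hodge class in `H_{2 b}(X)(-b)` which is zero on `U` comes
  from a Hodge class in `H_{2 b}(Z)(-b)` (these classes are in the part `W_0` of the lowest weight, which is
  an exact functor, and the pure polarizable Hodge structures and the pure motives are semisimple);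
* `cover`: for each `X` there is a smooth projective `V`, `dim V ≤ dim X`, and a morphism
  `H_{2 b}(V)(-b) → H_{2 b}(X)(-b)` with image `W_0` (resolution of singularities), so that Hodge classes lift;
* `lefschetz`: the Hodge classes on smooth projective schemes of dimension at most three are algebraic, hence
  motivated. -/
structure IsMotivic (O : ℤ → ℤ → Sch k → 𝓜) : Prop extends IsAbTheory O where
  point : PointHom O
  extreme : ∀ (X : Sch k) (d : ℕ) (b : ℤ), FT True X → topologicalKrullDim X.left ≤ d →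
    (b ≤ 0 ∨ (d : ℤ) ≤ b) → HodgeMotivated w one (O b 0 X)
  seq : ∀ {Z X U : Sch k} (i : Z ⟶ X) (j : U ⟶ X), FT True X → IsTriple i j → ∀ b : ℤ,
    ∃ (α : O b 0 Z ⟶ O b 0 X) (β : O b 0 X ⟶ O b 0 U),
      (∀ y : w.obj one ⟶ w.obj (O b 0 U), ∃ x, x ≫ w.map β = y) ∧
      (∀ y : one ⟶ O b 0 U, ∃ x, x ≫ β = y) ∧
      ∀ x : w.obj one ⟶ w.obj (O b 0 X), x ≫ w.map β = 0 → ∃ z, z ≫ w.map α = x
  cover : ∀ X : Sch k, FT True X → ∃ V : Sch k, SmoothProjective V ∧
    topologicalKrullDim V.left ≤ topologicalKrullDim X.left ∧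
    ∀ b : ℤ, ∃ u : O b 0 V ⟶ O b 0 X, ∀ x : w.obj one ⟶ w.obj (O b 0 X),
      ∃ y, y ≫ w.map u = x
  lefschetz : ∀ (V : Sch k) (b : ℤ), SmoothProjective V → topologicalKrullDim V.left ≤ (3 : ℕ) →
    HodgeMotivated w one (O b 0 V)

variable {w one}

lemma inherited : Inherited (abRel 𝓜) (HodgeMotivated w one) := by
  rintro X Y ⟨r⟩ hY x
  obtain ⟨f, hf⟩ := hY (x ≫ w.map r.i)
  refine ⟨f ≫ r.r, ?_⟩
  rw [w.map_comp, hf, Category.assoc, ← w.map_comp, r.retract, w.map_id, Category.comp_id]

variable {O : ℤ → ℤ → Sch k → 𝓜}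

lemma sided [w.Additive] (hO : IsMotivic w one O) :
    IsSidedTheory (HodgeMotivated w one) O where
  toIsAbTheory := hO.toIsAbTheory
  point := hO.point
  extreme := hO.extreme
  total := by
    intro Z X U i j hX ht b hZ hU x
    obtain ⟨α, β, h1, h2, h3⟩ := hO.seq i j hX ht b
    obtain ⟨f, hf⟩ := hU (x ≫ w.map β)
    obtain ⟨g, rfl⟩ := h2 f
    obtain ⟨z, hz⟩ := h3 (x - w.map g) (by
      rw [Preadditive.sub_comp, ← w.map_comp, hf, sub_self])
    obtain ⟨z', rfl⟩ := hZ z
    refine ⟨z' ≫ α + g, ?_⟩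
    rw [w.map_add, w.map_comp, hz, sub_add_cancel]
  opened := by
    intro Z X U i j hX ht b h y
    obtain ⟨α, β, h1, h2, h3⟩ := hO.seq i j hX ht b
    obtain ⟨x, rfl⟩ := h1 y
    obtain ⟨f, rfl⟩ := h x
    exact ⟨f ≫ β, w.map_comp f β⟩
  cover := by
    intro X hX
    obtain ⟨V, h1, h2, h3⟩ := hO.cover X hX
    refine ⟨V, h1, h2, fun b h x => ?_⟩
    obtain ⟨u, hu⟩ := h3 b
    obtain ⟨y, rfl⟩ := hu x
    obtain ⟨f, rfl⟩ := h y
    exact ⟨f ≫ u, w.map_comp f u⟩

end

/-- **Hodge classes are motivated: small blocks, and dimension by dimension.**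

(A) If one of the three blocks of `T` has at most `5` variables, then all Hodge classes in `H_{2 b}(Z_T)(-b)`, all `b`, and all Hodge classes in
`H^{2 j - 1}(Y_T)(j)`, `j ≥ 1`, are motivated.

(B) Let `d ≥ 1` and let `s` be any number. The following are equivalent, and all hold for `d ≤ 3`:

1. (`d ≤ 3`, or) all Hodge classes on all smooth projective `V` of dimension at most `d` are motivated;
2. all Hodge classes in `H_{2 b}(X)(-b)` are motivated, for all `b` and all separated schemes `X` of finite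
   type of dimension at most `d`;
3. the same for all `Z_T` such that the number of the equations or of the variables `y` or of the
   variables `z` is at most `d + 2`, and for all closed subschemes of affine spaces which are given by
   equations with `t_1, …, t_c` terms, `∑ max(t_i - 2, 0) ≤ d`;
4. all Hodge classes in `H^{2 j - 1}(Y_T)(j)` are motivated, for all `j ≥ 1` and all `T` with a block of at
   most `d + 2` variables;
5. the same for all `T` with exactly `d + 2` variables `y` and all `j ≥ 1` with `j ≥ s`. -/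
theorem result {𝓜 : Type u} [Category.{v} 𝓜] [Abelian 𝓜] {𝓗 : Type u'} [Category.{v'} 𝓗]
    [Abelian 𝓗] (w : 𝓜 ⥤ 𝓗) [w.Additive] (one : 𝓜) {k : Type} [Field k] [CharZero k]
    (O : ℤ → ℤ → Sch k → 𝓜) (hO : IsMotivic w one O) :
    (∀ (a₁ a₂ a₃ : ℕ) (T : Fin a₁ → Fin a₂ → Fin a₃ → k),
      OneBlock 5 a₁ a₂ a₃ →
      (∀ b : ℤ, HodgeMotivated w one (O b 0 (bilS T))) ∧
      ∀ j : ℕ, 1 ≤ j → HodgeMotivated w one (O (a₁ + a₂ + a₃ - 1 - j) 1 (hypS T))) ∧
    ∀ (d : ℕ), 1 ≤ d → ∀ s : ℕ, List.TFAE [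
      d ≤ 3 ∨ ∀ V : Sch k, SmoothProjective V → topologicalKrullDim V.left ≤ d →
        ∀ b : ℤ, HodgeMotivated w one (O b 0 V),
      ∀ X : Sch k, FT True X → topologicalKrullDim X.left ≤ d →
        ∀ b : ℤ, HodgeMotivated w one (O b 0 X),
      (∀ (a₁ a₂ a₃ : ℕ) (T : Fin a₁ → Fin a₂ → Fin a₃ → k), OneBlock (d + 2) a₁ a₂ a₃ →
        ∀ b : ℤ, HodgeMotivated w one (O b 0 (bilS T))) ∧
      ∀ (n : ℕ) (G : Finset (MvPolynomial (Fin n) k)), ∑ g ∈ G, (g.support.card - 2) ≤ d →
        ∀ b : ℤ, HodgeMotivated w one (O b 0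
          (aff k (MvPolynomial (Fin n) k ⧸ Ideal.span (G : Set (MvPolynomial (Fin n) k))))),
      ∀ (a₁ a₂ a₃ : ℕ) (T : Fin a₁ → Fin a₂ → Fin a₃ → k), OneBlock (d + 2) a₁ a₂ a₃ →
        ∀ j : ℕ, 1 ≤ j → HodgeMotivated w one (O (a₁ + a₂ + a₃ - 1 - j) 1 (hypS T)),
      ∀ (a₁ a₃ : ℕ) (T : Fin a₁ → Fin (d + 2) → Fin a₃ → k), ∀ j : ℕ, s ≤ j → 1 ≤ j →
        HodgeMotivated w one (O (a₁ + (d + 2) + a₃ - 1 - j) 1 (hypS T))] := by
  refine ⟨fun a₁ a₂ a₃ T ha => mot_one inherited (sided hO) 3
    (fun V hV hdim b => hO.lefschetz V b hV hdim) T ha,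
    fun d hd s => ?_⟩
  have h := mot_tfae inherited (sided hO) 3 (fun V hV hdim b => hO.lefschetz V b hV hdim) d hd s
  tfae_have 1 ↔ 2 := h.out 0 1
  tfae_have 2 → 3 := by
    intro h1
    refine ⟨(h.out 1 2).mp h1, fun n G hG =>
      complexity (sided_ab inherited (sided hO)) d (fun A _ _ _ hA => ?_) G hG⟩
    refine h1 _ (ft_aff True) ?_
    rw [Pool.Agent.Z125.UN.topDim_aff]
    exact hA
  tfae_have 3 → 4 := fun h1 => (h.out 2 3).mp h1.1
  tfae_have 4 → 2 := fun h1 => (h.out 3 1).mp h1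
  tfae_have 4 ↔ 5 := h.out 3 4
  tfae_finish

end Pool.Agent.Results.MP_b8862a_ag.CubicsByDimension
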