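import Mathlib
import Pool.Agent.U191.FTHalf
import Pool.Agent.TH170.FT.MT

/-!
# The motivated Mumford-Tate conjecture for the abelian varieties with a Frobenius element of one
half of all slope types of every CM field of degree `2 r ^ k`

Let `A` be an abelian variety over a finitely generated subfield of the complex numbers, of any
dimension and with arbitrary endomorphisms, which has good reduction at some place `v`, with a
residue field of `p ^ a` elements. Suppose that the characteristic polynomial of the Frobenius
element at `v` is the product of the minimal polynomials of Weil numbers `π i` that generate CM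
fields `K i` of degree `2 g i` (`HasFrobenius`); so `dim A = ∑ i, g i`. Nothing is assumed about
the Galois groups of the fields `K i`; they are pairwise independent: for `i ≠ k` and all complex
embeddings `φ` of `K i` and `ψ` of `K k` some automorphism of `ℂ` is the identity on `φ (K i)` and
the complex conjugation on `ψ (K k)` (this is no condition if there is only one field).

We fix an isomorphism `ν` of the algebraic closure of `ℚ_p` with `ℂ`; it defines a `p`-adic
valuation of `ℂ`, with the value one at `p`. Let `M i` be a function with integral values on the
complex embeddings of `K i`, invariant under complex conjugation (the weights). A CM type `Φ i` of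
`K i` (a choice of one element out of each complex conjugate pair of embeddings; there are
`2 ^ (g i)` types), `M i` and a real number `κ ≠ 0` prescribe the slopes `(a + κ M) / 2` (at the
embeddings in `Φ i`) and `(a - κ M) / 2` (outside of `Φ i`) of a Weil number in `K i` (`IsOfType`).
If `p` splits completely in `K i` then, by Honda and Tate, all slopes with rational values between
`0` and `a` that are symmetric in this way occur for abelian varieties over finite fields. The case
`M = 1`, `κ = a` is the case of ordinary reduction.

**The property of the slope types.** `Q` (`Holds`) is the following: for all abelian varieties `A`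
as above with Weil numbers `π i` of the slope types `Φ i`, and all prime numbers `ℓ`, all Tate
classes in the tensor powers of `H^1` (and so in the cohomology of all powers of `A`) are linear
combinations of Hodge classes, and even of products of Hodge classes of degree two
(`MumfordTateStrong`). Together with the theorem of Deligne (Hodge classes are Tate classes) this
is the equality of the Mumford-Tate group (over `ℚ_ℓ`) and of the connected component of the
`ℓ`-adic monodromy group: both are reductive, so that they are determined by their invariants in
the spaces `(H^1)^{⊗ 2 m}(m)`. So **the Mumford-Tate conjecture holds for `A` and for all motives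
in the tannakian category generated by `H^1(A)`. Moreover, all these classes are algebraic
(Lefschetz), so that the motivic Galois group is the same group.**

In the formal statement (`IsRealization`) `W` is `H_1(A, ℚ)`, `T` the tangent space at the origin
and `per : W → T` the inclusion, `ω₀` is the form given by a polarization; `V` is the rational
Tate module with the comparison map `comp : W → V`, the action `ρ` of the Galois group and the
Weil pairing `ω`; `χ` is the cyclotomic character. The theorems of Faltings on endomorphisms and
on semisimplicity are part of the data. That the absence of relations between the conjugates of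
the Weil numbers of one Frobenius element implies the Mumford-Tate conjecture was formalized
before (starting files).

**The theorem.** Let `K` be **any CM field of degree `2 g = 2 r ^ k`**, `r` a prime number, of
degree at least `16` if `r = 2`. Nothing is assumed about the Galois group of the normal closure of
`K`, and nothing about the subfields of `K`.

* (`HalfOfAll`) For all weights `M` (odd if `r = 2`; if `r` is odd then `r` may divide some, but not
  all of them) the property `Q` is true for **at least one half of all `2 ^ g` types** of `K`.
* (`MostWithWeightsOne`) For the weights `M = 1` (for instance in the ordinary case) it is true for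
  at least `(1 - 1 / r) 2 ^ g` of the types.
* (`OneOfTwo`) There is a set `B` of embeddings of `K`, stable under complex conjugation, such that
  for **every** type `Φ` it is true for `Φ` or for the symmetric difference of `Φ` and `B`.
* (`SixteenPercent`) There is a number `g₀` such that for every CM field that is **abelian over
  `ℚ`**, of any degree `2 g ≥ 2 g₀`, and all odd weights it is true for at least 16 percent of all
  `2 ^ g` types; again nothing is assumed on the subfields.

All this is proved more generally for finitely many pairwise independent fields `K i`; the
proportions are then multiplied.

The earlier results of this kind (OneFrobeniusMumfordTate for this problem,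
AlmostAllFrobeniusTypes and AllCMFields for MP_33b3f9_ag) treat fields whose Galois groups are
2-transitive, or almost all types of the fields with few CM subfields; they say nothing for the
abelian fields of 2-power degree, and for the other fields with many CM subfields. The proof joins
two parts of the library of the starting files: the theorem that one half of all types have no
relations (`Pool.Agent.Q29.EP`, written for the conjecture of Parshin, MP_de59b4_ag), and the
consequences of the absence of relations between the Frobenius eigenvalues for this problem.
-/

set_option autoImplicit false

namespace Pool.Agent.Results.MP_b8862a_ag.HalfOfAllTypes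

open NumberField Module Pool.Agent.H204R3.CM Pool.Agent.H977R3.CM Pool.Agent.TH170 Pool.Agent.Q29.EP

open Pool.Agent.H204R3.GP

/-- The Mumford-Tate conjecture for the abelian varieties with a Frobenius element whose characteristic
polynomial is the product of the minimal polynomials of Weil numbers `π i` for `p ^ a` with the slope
types `Φ i`, `M i`, for the prime number `ℓ`. -/
def HoldsAt {p : ℕ} [Fact p.Prime] (ν : PadicAlgCl p ≃+* ℂ) {I : Type} [Fintype I]
    (K : I → Type) [∀ i, Field (K i)] [∀ i, NumberField (K i)] [∀ i, IsCMField (K i)]
    (M : ∀ i, (K i →+* ℂ) → ℤ) (Φ : ∀ i, Set (K i →+* ℂ)) (a : ℕ) (π : ∀ i, K i)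
    (ℓ : ℕ) [Fact ℓ.Prime] : Prop :=
  ∀ (W T V Γ : Type) [AddCommGroup W] [Module ℚ W] [AddCommGroup T] [Module ℂ T]
    [AddCommGroup V] [Module ℚ_[ℓ] V] [FiniteDimensional ℚ_[ℓ] V] [Group Γ]
    (per : W →+ T) (ω₀ : W →ₗ[ℚ] W →ₗ[ℚ] ℚ) (comp : W →+ V) (ρ : Representation ℚ_[ℓ] Γ V)
    (χ : Γ →* ℚ_[ℓ]) (ω : V →ₗ[ℚ_[ℓ]] V →ₗ[ℚ_[ℓ]] ℚ_[ℓ]),
    FT.IsOfType ν a K M Φ π → FT.IsRealization per ω₀ comp ρ χ ω →
      FT.HasFrobenius ρ χ p a π → MumfordTateStrong per comp ρ χ

/-- The Mumford-Tate conjecture for all abelian varieties with a Frobenius element whose
characteristic polynomial is the product of the minimal polynomials of Weil numbers with the slope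
types `Φ i`, `M i`, for all prime numbers `ℓ`. -/
def Holds {p : ℕ} [Fact p.Prime] (ν : PadicAlgCl p ≃+* ℂ) {I : Type} [Fintype I]
    (K : I → Type) [∀ i, Field (K i)] [∀ i, NumberField (K i)] [∀ i, IsCMField (K i)]
    (M : ∀ i, (K i →+* ℂ) → ℤ) (Φ : ∀ i, Set (K i →+* ℂ)) : Prop :=
  ∀ (a : ℕ) (π : ∀ i, K i) (ℓ : ℕ) [Fact ℓ.Prime], 0 < a → HoldsAt ν K M Φ a π ℓ

/-- The property of the slope types `Φ i` with the weights `M i`. -/
def Q : TypeProperty := fun _ _ ν _ _ K _ _ _ M Φ => Holds ν K M Φ

/-- **The Mumford-Tate conjecture holds, and all Tate classes on the powers are algebraic, for the
abelian varieties with a Frobenius element of one half of all slope types of every CM field of degree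
`2 r ^ k`.** -/
theorem result : HalfOfAll Q ∧ MostWithWeightsOne Q ∧ OneOfTwo Q ∧ SixteenPercent Q := by
  have h : WithoutRelations Q := Pool.Agent.U191.FTHalf.withoutRelations
    fun _ _ _ _ _ _ _ _ _ _ _ hind hM hΦ hnd _ _ _ _ ha _ _ _ _ _ _ _ _ _ _ _ _ _ _ _ _ _ _
      hπ hR hF => FT.mumfordTate_of_types hind hM hΦ hnd ha hπ hR hF
  exact ⟨halfOfAll h, mostWithWeightsOne h, oneOfTwo h, sixteenPercent h⟩

end Pool.Agent.Results.MP_b8862a_ag.HalfOfAllTypes
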