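import Pool.Agent.U434.HM.Conv4

/-!
# The Mumford-Tate conjecture for hyperkähler varieties of every deformation type

Let `X` be a projective hyperkähler variety over a finitely generated field of characteristic zero, of
any deformation type (known or not). The Mumford-Tate conjecture was known for `H²(X)` (André, if
`b₂ > 3`), and for the whole cohomology if `X` is of one of the four known deformation types, as its
André motive is then abelian.
We prove it for all `X`, and all powers of `X`: for all `k` and all `r_1, …, r_k`, the Tate classes in
`(H^(r_1) ⊗ … ⊗ H^(r_k))^∨(-m)`, `r_1 + … + r_k = 2 m`, are the combinations of the Hodge classes. By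
the Künneth formula and Poincaré duality, this is the equality of the space spanned by the Hodge
classes and of the space of the Tate classes in `H^(2 j)(X^k)(j)`, for all `j` and `k`.

Idea of the proof. Let `G` be the Galois group, acting on the `ℓ`-adic `H^i`, and let `so(H²)` act on
`H^i` (Verbitsky, Looijenga-Lunts) by `ρ_i`. Let `A_i` be the algebra of the endomorphisms of `H^i`
which commute with `so(H²)`.

(1) By `N184.HK` (see `U434.PA`), the elements `σ` of `G` act on `A_i` with eigenvalues which are
roots of unity of bounded order, and the determinants of `σ` on the images of the central idempotents
of `A_i` are, up to roots of unity, powers of the multiplier `μ(σ)` of `σ` on `H²`.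

(2) Let `σ` be in `G` and `w` a homomorphism from the multiplicative group to the additive group of the
field of coefficients. Let `w(σ)_i` be the operator on `H^i` which acts as `w(e)` on the generalized
eigenspace of `σ` for `e`. These operators span the Lie algebra of the torus of `σ`. The key step
is the formula `w(σ)_i = i w(μ) / 4 + ρ_i(w(σ)_2 - w(μ) / 2)`: the difference `T` of the two sides
commutes with `so(H²)`, as `σ` normalizes `ρ_i`, and with `A_i` by (1), and all its traces on the
central idempotents vanish by (1), so it is nilpotent; and it is diagonalizable, because the
representations of `so(H²)` preserve diagonalizability (`rep_diag`, own proof by `sl₂`-triples which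
are spanned by the operators `x ∧ y`). So `T = 0`: the Lie algebra of the torus of `σ` on the whole
cohomology is given by the one on `H²`.

(3) If `θ` is a Tate class then it is killed by the operators `w(σ)` (minus `m w(χ(σ))`) for `σ` in an
open subgroup, so by (2) it is killed by the Lie algebra of the image of Galois on `H²`, which acts by
`ρ`. By André's theorem this is the Lie algebra of the Hodge group of `H²`. The rational components of
`θ` are then killed by it and they are Hodge classes, because the Hodge structure of `H^i` is given by
an element of `so(H²)` (Verbitsky).

(4) Conversely let `θ` be in the span of the Hodge classes. The same formula shows that the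
eigenvalues of `σ` which are involved in `θ` are, after the Tate twist, killed by all `w`, hence roots
of unity. For Frobenius elements their degree is bounded, and by density so is their order for all
`σ`. So `σ` acts unipotently if it is in a small open subgroup. Such a representation of the Galois
group of a number field is trivial (it is de Rham, so unramified everywhere).
-/

set_option autoImplicit false

namespace Pool.Agent.Results.MP_b8862a_ag.HyperkaehlerMumfordTate

open Pool.Agent.U434.HM Pool.Agent.U434.PA Pool.Agent.N184.HK

/-- **The Mumford-Tate conjecture for hyperkähler varieties and their powers.** Let `Y` be a projective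
hyperkähler variety over a finitely generated field, of any deformation type, `r_1, …, r_k ≤ 2 dim Y` with
`r_1 + … + r_k = 2 m`, and let `θ` be an element of `(H^(r_1)(Y) ⊗ … ⊗ H^(r_k)(Y))^∨`. Then `θ` is a
Tate class of weight zero for the Tate twist `(-m)` if and only if it is a combination of Hodge
classes. -/
theorem result {Ω : Type} [Field Ω] [CharZero Ω] [IsAlgClosed Ω] [TopologicalSpace Ω]
    [IsTopologicalRing Ω] [T2Space Ω] (Y : Variety Ω) {k : ℕ} (r : Fin k → ℕ)
    (hr : ∀ a, r a ≤ Y.X.d) (m : ℕ) (hm : ∑ a, r a = 2 * m) (θ : Form Y.X r) :
    Y.c.IsTate r m θ ↔ θ ∈ Y.J.span r m :=
  tate_iff Y.c Y.arith Y.J Y.andre hr hm θ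

end Pool.Agent.Results.MP_b8862a_ag.HyperkaehlerMumfordTate
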