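import Pool.Agent.U188.SubTate

/-!
# Tate classes of the motives generated by abelian varieties whose simple factors have a coprime
# signature, or a pseudo-reflection or a transvection, or belong to some classical types

Let `X` be an abelian variety over a number field, or over a finitely generated subfield of `ℂ`, of any
dimension. Suppose that each simple factor `Y` of `X` over `ℂ` (`IsFactor`) belongs to one of the
following classes (`GoodTwo`); different factors may belong to different classes and occur with any
multiplicities. Let `ℚ[a]` be a maximal subfield of the endomorphism algebra of `Y`, of degree `m`;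
then `ℂ ⊗ H_1(Y, ℚ)` is the direct sum of the eigenspaces `V_s`, `s` an embedding of `ℚ[a]`, of
dimension `r = 2 dim(Y) / m`.

* The dimension of `Y` is at most three.
* `HasCMult`: `Y` has complex multiplication.
* `QuadThree`: the endomorphism algebra is an imaginary quadratic field, with multiplicities at most
  three on the tangent space (no condition on the discriminant).
* `RealOdd`: `Y` is of Albert type I or II, of relative dimension odd or at most three.
* `CopMult` (coprime signature): the multiplicity of one embedding `s` in the tangent space is prime to
  `r`. The endomorphism algebra may be of any type; the dimension is unbounded.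
* `GalMultTwo` (a condition on the image of Galois): for each `s` either there is a pseudo-reflection
  or a transvection of `V_s` conjugation by which is a linear combination of conjugations by
  elements of the Galois group which commute with the endomorphisms (for example such an element of
  the Galois group; for a reflection of order two `Y` has to be of type IV), or some element acts on
  `V_s` with eigenvalues in two classes of coprime multiplicities (for instance a Frobenius element
  with two Newton slopes, or an element with two eigenvalues).

One condition on the centre `F` of `End(X) ⊗ ℚ`: let `n(s)` be the multiplicity of the homomorphism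
`s : F → ℂ` in the tangent space; `s` is mixed if `s` and its complex conjugate occur. The condition is
that all conjugates of mixed homomorphisms are mixed (`NoDefinite`: the simple factors without complex
multiplication are of type I, II or III, or of type IV without definite places; there is no condition
on the factors with complex multiplication), or more generally (`IsSeparated`) that if `s` has a mixed
conjugate and the pairs `(n(s), n(s̄))`, `(n(s'), n(s̄'))` are not proportional for all the conjugates of
`s`, `s'`, then they are not proportional for some conjugates one of which at least is mixed.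

The motives `M` of weight `0` in the tannakian category generated by `X` are direct factors of sums of
the tensor spaces `h^1(X)^{⊗ 2m}(m)`. So let `W` be any rational subspace of the space of the multilinear
forms in `2 m` variables on `H_1(X, ℚ)`, for instance the Betti realization of such a motive (but `W`
need not be a Hodge substructure), and consider the Tate classes in `ℚ_ℓ ⊗ W`: the multilinear forms
`φ` in `2 m` variables on the Tate module, which are combinations of elements of `W` with
coefficients in `ℚ_ℓ`, and on which a subgroup of finite index of the Galois group acts through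
`χ ^ m`.

Theorem. All Tate classes in `ℚ_ℓ ⊗ W` are linear combinations of Hodge tensors **which belong to `W`**,
for every rational subspace `W`, for all `m`. If `W` is the Betti realization of the motive `M`, then the
Tate classes of `M` are combinations of the Hodge classes of `M`. If `W` is the space of all forms, then
by the theorems of Faltings and Deligne this is the Mumford-Tate conjecture for `X` and all its powers,
at each prime `ℓ`: both groups are determined by these tensors. By the theorem of André (Hodge classes
on abelian varieties are motivated) it is the conjecture of this problem for the motives generated by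
`X`.

The Hodge tensors need not be generated in degree two, and the Hodge conjecture need not be known for
`X`; the centre may be arbitrary, with any CM factors.

In the Lean statement `X : AV` is the complex abelian variety with `H_1(X, ℚ) = X.H` and the period
map `X.per`, `E` is a polarization, `ρ` the representation of the Galois group `Γ` on the Tate module
`ℚ_ℓ ⊗ H_1(X, ℚ)` with the known properties of the Tate module (`IsTateModule`: the Weil pairing, the
theorems of Faltings, the Hodge-Tate decomposition, and the theorem of Serre and Sen that the
Hodge-Tate elements generate the Lie algebra), `χ` is the cyclotomic character, and `ℂ` is identified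
with an algebraic closure of `ℚ_ℓ`.

The case that `W` is the space of all forms is the library theorem `Pool.Agent.N183.U6.tate_tensor`
(`Pool/Agent/N183/U6/Mt.lean`), which no starting hand-in states; the subspaces `W` are new
(`Pool/Agent/U188/SubTate.lean`: intersections of rational subspaces of the space of functions and
extension of the scalars to `ℚ_ℓ`).
-/

namespace Pool.Agent.Results.MP_b8862a_ag.MotivesOfMixedTypes

open Module Pool.Agent.Y90 Pool.Agent.R915 Pool.Agent.N183.U5 Pool.Agent.N183.U6 TensorProduct
open Pool.Agent.Y224.TS.St (IsTateModule)

/-- the rational forms in `2 m` variables on `H_1(X, ℚ)` -/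
abbrev RatForm (X : AV) (m : ℕ) : Type := MultilinearMap ℚ (fun _ : Fin m × Fin 2 => X.H) ℚ

/-- the `ℓ`-adic forms in `2 m` variables on the Tate module -/
abbrev AdicForm (X : AV) (ℓ : ℕ) [Fact ℓ.Prime] (m : ℕ) : Type :=
  MultilinearMap ℚ_[ℓ] (fun _ : Fin m × Fin 2 => ℚ_[ℓ] ⊗[ℚ] X.H) ℚ_[ℓ]

section

variable {X : AV} {ℓ : ℕ} [Fact ℓ.Prime] {m : ℕ}

/-- All conjugates of mixed homomorphisms are mixed. -/
def NoDefinite (n : ℂ → ℕ) : Prop := ∀ s : ℂ, IsMixed n s → ∀ τ : ℂ ≃+* ℂ, IsMixed n (τ s)

theorem separated_of {n : ℂ → ℕ} (h : NoDefinite n) : IsSeparated n := by
  rintro s s' ⟨τ₀, h₀⟩ ⟨τ, hτ⟩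
  refine ⟨τ, hτ, Or.inl ?_⟩
  have h1 := h _ h₀ (τ₀.symm.trans τ)
  rwa [RingEquiv.trans_apply, RingEquiv.symm_apply_apply] at h1

/-- `φ` is a Tate tensor: a subgroup of finite index of `Γ` acts on it through `χ ^ m` -/
def IsTateTensor {Γ : Type} [Group Γ] (ρ : Representation ℚ_[ℓ] Γ (ℚ_[ℓ] ⊗[ℚ] X.H))
    (χ : Γ →* ℚ_[ℓ]) (φ : AdicForm X ℓ m) : Prop :=
  ∃ Δ : Subgroup Γ, Δ.FiniteIndex ∧ ∀ g ∈ Δ, ∀ v : Fin m × Fin 2 → ℚ_[ℓ] ⊗[ℚ] X.H,
    φ (fun k => ρ g (v k)) = χ g ^ m * φ v

/-- `φ` is a `ℚ_ℓ`-linear combination of rational forms with the property `P` -/
def SpannedBy (P : RatForm X m → Prop) (φ : AdicForm X ℓ m) : Prop :=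
  ∃ (N : ℕ) (c : Fin N → ℚ_[ℓ]) (f : Fin N → RatForm X m), (∀ j, P (f j)) ∧
    ∀ v : Fin m × Fin 2 → X.H, φ (fun k => (1 : ℚ_[ℓ]) ⊗ₜ[ℚ] v k) =
      ∑ j, c j * ((f j v : ℚ) : ℚ_[ℓ])

end

/-- **Tate classes of motives generated by abelian varieties with simple factors of these classes.** -/
theorem result (X : AV) (E : X.H → X.H → ℚ) (hE : Pool.Agent.Y90.St.IsPolarization X.per E)
    (ℓ : ℕ) [Fact ℓ.Prime] [Algebra ℚ_[ℓ] ℂ] [Algebra.IsAlgebraic ℚ_[ℓ] ℂ]
    {Γ : Type} [Group Γ] (ρ : Representation ℚ_[ℓ] Γ (ℚ_[ℓ] ⊗[ℚ] X.H)) (χ : Γ →* ℚ_[ℓ])
    (hρ : IsTateModule X.per E ρ χ)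
    (hX : ∀ Y, IsFactor Y X → GoodTwo X ρ Y)
    (n : ℂ → ℕ) (hn : IsCentreMult X n) (hs : NoDefinite n ∨ IsSeparated n) {m : ℕ}
    (W : Submodule ℚ (RatForm X m)) (φ : AdicForm X ℓ m) (hφ : IsTateTensor ρ χ φ)
    (hW : SpannedBy (fun f => f ∈ W) φ) :
    SpannedBy (fun f => IsHodgeTensor X.per f ∧ f ∈ W) φ :=
  Pool.Agent.U188.SubTate.tate_sub X E hE ℓ ρ χ hρ hX n hn (hs.elim separated_of id) W φ hφ hW

end Pool.Agent.Results.MP_b8862a_ag.MotivesOfMixedTypes
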